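import Pool.Agent.W792.WA.Stm6
import Pool.Agent.W688.LL.Osc

/-! WA6-KA (helper792): decay of the one-dimensional kernel. -/

set_option autoImplicit false

namespace Pool.Agent.W216.WA.KA

open MeasureTheory Pool.Agent.W792.WA Pool.Agent.W688.LL.Osc

theorem cube_root {x : ℝ} (hx : 0 ≤ x) (h : x ≤ 10 ^ 6) : x ^ (1 / 3 : ℝ) ≤ 100 := by
  have h1 : x ^ (1 / 3 : ℝ) ≤ ((100 : ℝ) ^ (3 : ℝ)) ^ (1 / 3 : ℝ) := by
    apply Real.rpow_le_rpow hx _ (by norm_num)
    refine h.trans (le_of_eq ?_)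
    norm_num
  refine h1.trans (le_of_eq ?_)
  rw [← Real.rpow_mul (by norm_num)]
  norm_num

theorem cube_of {x : ℝ} (hx : 0 ≤ x) : (x ^ (1 / 3 : ℝ)) ^ 3 = x := by
  rw [← Real.rpow_natCast, ← Real.rpow_mul hx]
  norm_num

theorem main : S_KA := by
  refine ⟨100, by norm_num, fun t n => ?_⟩
  have ht := abs_nonneg t
  have hpos : 0 < (1 + |t|) ^ (1 / 3 : ℝ) := Real.rpow_pos_of_pos (by linarith) _
  have hk : k1 t n = ∫ s in (-(1 / 4 : ℝ))..(-(1 / 4) + 1),
      Complex.exp (Complex.I * (ps t n s : ℂ)) := circ t n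
  rw [hk, le_div_iff₀ hpos]
  by_cases hc : 1 + |t| ≤ 20000
  · have h1 := W628.CG.crude (show -(1 / 4 : ℝ) ≤ -(1 / 4) + 1 by linarith) (ps t n)
    have h2 : -(1 / 4 : ℝ) + 1 - -(1 / 4) = 1 := by norm_num
    have h3 := cube_root (x := 1 + |t|) (by linarith) (by linarith)
    calc _ ≤ (1 : ℝ) * 100 := by
          refine mul_le_mul ?_ h3 hpos.le (by norm_num)
          linarith
      _ = 100 := by norm_num
  · push Not at hc
    have ht1 : 19999 < |t| := by linarith
    have ht0 : 0 < |t| := by linarith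
    have hq0 : 0 ≤ 8192 / |t| := by positivity
    obtain ⟨δ, hδ⟩ : ∃ δ, δ = (8192 / |t|) ^ (1 / 3 : ℝ) := ⟨_, rfl⟩
    have hδ0 : 0 < δ := by
      rw [hδ]
      exact Real.rpow_pos_of_pos (by positivity) _
    have hδ1 : δ ≤ 1 := by
      rw [hδ]
      apply Real.rpow_le_one hq0 _ (by norm_num)
      rw [div_le_one ht0]
      linarith
    have hδ3 : δ ^ 3 = 8192 / |t| := by rw [hδ]; exact cube_of hq0
    have hM : (32 / δ) ^ 2 * (8 / δ) ≤ |t| := by
      have h1 : (32 / δ) ^ 2 * (8 / δ) = 8192 / δ ^ 3 := by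
        field_simp
        norm_num
      rw [h1, hδ3]
      apply le_of_eq
      field_simp
    have h1 := one_dim hδ0 hδ1 t hM n
    refine (mul_le_mul_of_nonneg_right h1 hpos.le).trans ?_
    rw [hδ, ← Real.mul_rpow hq0 (by linarith)]
    apply cube_root
    · positivity
    · have h2 : 8192 / |t| * (1 + |t|) = 8192 / |t| + 8192 := by
        field_simp
      have h3 : 8192 / |t| ≤ 1 := by
        rw [div_le_one ht0]
        linarith
      rw [h2]
      linarith

end Pool.Agent.W216.WA.KA
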